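import Pool.Agent.H31.S3.Final

/-!
# Spaces with a sharply 3-transitive action of a locally compact group are compact

`G` is a locally compact Hausdorff group, not discrete, generated by a countable union of compact
subsets (in particular every compactly generated group is allowed), `M` a locally compact Hausdorff
space with at least three points, and `G` acts on `M` continuously and sharply 3-transitively.
Then `M` is compact.  No connectedness or countability assumption is made on `G` or `M`.

Sketch of the proof.  Let `H` be the stabiliser of two points `0`, `∞`; it acts simply transitively and
properly on the other points.  (1) Convergence: no `h` can move points of a compact set close to `0`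
while `h⁻¹` also moves points of a compact set close to `0`.  (2) A ping-pong argument in the Cayley
graph of an open compactly generated subgroup of `H` shows that `H` contains `t` with `t^n → ∞`, unless `H`
is locally elliptic, which is excluded by computing Haar measures of double cosets.  (3) `t` or its
inverse contracts a neighbourhood of `0`, and the same at `∞`.  If `t` contracts at `0` and `t⁻¹` at
`∞`, `M` is compact.  (4) If `t` contracts at both points, `M` is not connected (the basin of `0` is
clopen); in the totally disconnected case a limit of rescaled blocks of small subgroups (tidy above in
the sense of Willis) gives an infinite compact set with a noncompact setwise stabiliser, in which a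
ping-pong argument finds an element to which (3) applies with bounded orbits, so `M` is compact.
-/

open Filter Topology Set

namespace Pool.Agent.Results.MP_67c715_al.SharplyTripleTransitiveCompact

theorem result (G M : Type*) [Group G] [TopologicalSpace G] [IsTopologicalGroup G]
    [LocallyCompactSpace G] [T2Space G] [TopologicalSpace M] [LocallyCompactSpace M] [T2Space M]
    [MulAction G M] [ContinuousSMul G M]
    (hG : ∃ K : Set G, IsSigmaCompact K ∧ Subgroup.closure K = ⊤)
    (hd : ¬ DiscreteTopology G) (h3 : ∃ x y z : M, x ≠ y ∧ x ≠ z ∧ y ≠ z)
    (hst : ∀ x y z x' y' z' : M, x ≠ y → x ≠ z → y ≠ z → x' ≠ y' → x' ≠ z' → y' ≠ z' →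
      ∃! g : G, g • x = x' ∧ g • y = y' ∧ g • z = z') : CompactSpace M :=
  Pool.Agent.H31.S3.main hG hd h3 hst

end Pool.Agent.Results.MP_67c715_al.SharplyTripleTransitiveCompact
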